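import Mathlib

/-!
# Dicots with the evil twin property but without an evilly normal evil kernel

Let `d = {0 | 0, *}`, `u = {0, * | 0}`, `*2 = {0, * | 0, *}` and `g = {0, d, u | 0, *2}`. The sums
of copies of `g`, `*2`, `d`, `u` and `*` form a closed set of dicots with the evil twin property.
The games `g` and `d` lie outside of every evil kernel, but `g + g + d` lies in every evil kernel.
-/

namespace Pool.Agent.Results.MP_df1cff_co.NotNormalizable

/-- Short partizan games. In the game `mk n opt` the player `p` (`true` is Left, `false` is Right)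
has the options `opt p i` for `i < n p`. -/
inductive Game : Type
  | mk (n : Bool → ℕ) (opt : (p : Bool) → Fin (n p) → Game) : Game

/-- `Opt p G G'`: the game `G'` is an option of the player `p` in `G`. -/
def Opt (p : Bool) : Game → Game → Prop
  | .mk _ opt, G' => ∃ i, opt p i = G'

/-- Two games are identical (the same form) if each option of a player in one of them is identical
to an option of the same player in the other one. -/
def Ident : Game → Game → Prop
  | .mk _ opt => fun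
    | .mk _ opt' => ∀ p, (∀ i, ∃ j, Ident (opt p i) (opt' p j)) ∧
        ∀ j, ∃ i, Ident (opt p i) (opt' p j)

/-- The game `0 = { | }`. -/
def zero : Game := .mk (fun _ => 0) fun _ i => i.elim0

/-- The game `* = {0 | 0}`. -/
def star : Game := .mk (fun _ => 1) fun _ _ => zero

/-- The sum of the game with options `G p i`, `i < n p`, and a game, given the sums `ih p i` of
`G p i` with games. -/
def addMk (n : Bool → ℕ) (ih : (p : Bool) → Fin (n p) → Game → Game) : Game → Game
  | .mk n' opt' => .mk (fun p => n p + n' p) fun p k =>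
      if h : k.val < n p then ih p ⟨k.val, h⟩ (.mk n' opt')
      else addMk n ih (opt' p ⟨k.val - n p, by omega⟩)

/-- The disjunctive sum. -/
def add : Game → Game → Game
  | .mk n opt => addMk n fun p i => add (opt p i)

/-- `Wins mis G p`: the player `p`, moving first in `G`, wins under normal play (`mis = false`) or
misere play (`mis = true`). -/
def Wins (mis : Bool) : Game → Bool → Prop
  | .mk n opt, p => (mis = true ∧ n p = 0) ∨ ∃ i : Fin (n p), ¬ Wins mis (opt p i) (!p)

/-- The four outcome classes. -/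
inductive Outcome
  | L
  | R
  | N
  | P

open Classical in
/-- The outcome of a game under normal play (`mis = false`) or misere play (`mis = true`). -/
noncomputable def outcome (mis : Bool) (G : Game) : Outcome :=
  if Wins mis G true then (if Wins mis G false then .N else .L)
  else (if Wins mis G false then .R else .P)

/-- A game is dicotic if in each of its positions either both players or none of them have an
option. -/
def Dicotic : Game → Prop
  | .mk n opt => (n true = 0 ↔ n false = 0) ∧ ∀ p i, Dicotic (opt p i)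

/-- `A` is closed under disjunctive sums and options. -/
def IsClosed (A : Set Game) : Prop :=
  (∀ G ∈ A, ∀ H ∈ A, add G H ∈ A) ∧ ∀ G ∈ A, ∀ p G', Opt p G G' → G' ∈ A

/-- `K` is an evil kernel of `A`: a subset with `o⁺(G) = o⁻(G')` and `o⁻(G) = o⁺(G')` for all `G` in
`A`, where `G' = G` if `G` lies in `K` and `G' = G + *` otherwise. -/
def IsEvilKernel (A K : Set Game) : Prop :=
  K ⊆ A ∧ (∀ G ∈ K, outcome false G = outcome true G ∧ outcome true G = outcome false G) ∧
    ∀ G ∈ A, G ∉ K → outcome false G = outcome true (add G star) ∧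
      outcome true G = outcome false (add G star)

/-- The condition on the pair `(A, K)` in the definition of evilly normal pairs. -/
def IsNormal (A K : Set Game) : Prop :=
  ∀ G ∈ A, ∀ H ∈ A, add G H ∉ K ↔ G ∉ K ∧ H ∉ K

/-- A set of games that contains with each game the games identical to it. -/
def IsSetOfForms (A : Set Game) : Prop := ∀ G H, Ident G H → G ∈ A → H ∈ A

/-! ### Basic facts -/

theorem opt_add (p : Bool) (G H K : Game) :
    Opt p (add G H) K ↔
      (∃ G', Opt p G G' ∧ K = add G' H) ∨ ∃ H', Opt p H H' ∧ K = add G H' := by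
  rcases G with ⟨n, f⟩
  rcases H with ⟨m, g⟩
  simp only [Opt, add, addMk]
  constructor
  · rintro ⟨k, hk⟩
    by_cases h : k.val < n p
    · left
      rw [dif_pos h] at hk
      exact ⟨_, ⟨⟨k.val, h⟩, rfl⟩, hk.symm⟩
    · right
      rw [dif_neg h] at hk
      exact ⟨_, ⟨⟨k.val - n p, by omega⟩, rfl⟩, hk.symm⟩
  · rintro (⟨_, ⟨i, rfl⟩, rfl⟩ | ⟨_, ⟨j, rfl⟩, rfl⟩)
    · refine ⟨⟨i.val, by omega⟩, ?_⟩
      rw [dif_pos i.isLt]
    · refine ⟨⟨n p + j.val, by omega⟩, ?_⟩
      rw [dif_neg (by simp)]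
      congr 2
      apply Fin.ext
      simp

theorem ind {P : Game → Prop} (h : ∀ G, (∀ p G', Opt p G G' → P G') → P G) : ∀ G, P G := by
  intro G
  induction G with
  | mk n f ih =>
    apply h
    rintro p _ ⟨i, rfl⟩
    exact ih p i

theorem wins_iff (mis : Bool) (G : Game) (p : Bool) :
    Wins mis G p ↔ (mis = true ∧ ¬ ∃ G', Opt p G G') ∨ ∃ G', Opt p G G' ∧ ¬ Wins mis G' (!p) := by
  rcases G with ⟨n, f⟩
  simp only [Opt, Wins]
  refine or_congr (and_congr Iff.rfl ?_) ?_
  · constructor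
    · rintro h ⟨_, i, _⟩
      have := i.isLt
      omega
    · intro h
      by_contra h0
      exact h ⟨_, ⟨0, by omega⟩, rfl⟩
  · constructor
    · rintro ⟨i, hi⟩
      exact ⟨_, ⟨i, rfl⟩, hi⟩
    · rintro ⟨_, ⟨i, rfl⟩, hi⟩
      exact ⟨i, hi⟩

theorem dicotic_iff (G : Game) :
    Dicotic G ↔ ((∃ G', Opt true G G') ↔ ∃ G', Opt false G G') ∧
      ∀ p G', Opt p G G' → Dicotic G' := by
  rcases G with ⟨n, f⟩
  simp only [Opt, Dicotic]
  have key : ∀ p, (∃ G', ∃ i : Fin (n p), f p i = G') ↔ ¬ n p = 0 := by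
    intro p
    constructor
    · rintro ⟨_, i, _⟩ h
      have := i.isLt
      omega
    · intro h
      exact ⟨_, ⟨0, by omega⟩, rfl⟩
  rw [key, key, not_iff_not]
  refine and_congr Iff.rfl ?_
  constructor
  · rintro h p _ ⟨i, rfl⟩
    exact h p i
  · intro h p i
    exact h p _ ⟨i, rfl⟩

theorem ident_iff (G H : Game) :
    Ident G H ↔ ∀ p, (∀ G', Opt p G G' → ∃ H', Opt p H H' ∧ Ident G' H') ∧
      ∀ H', Opt p H H' → ∃ G', Opt p G G' ∧ Ident G' H' := by
  rcases G with ⟨n, f⟩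
  rcases H with ⟨m, g⟩
  simp only [Opt, Ident]
  refine forall_congr' fun p => and_congr ?_ ?_
  · constructor
    · rintro h _ ⟨i, rfl⟩
      obtain ⟨j, hj⟩ := h i
      exact ⟨_, ⟨j, rfl⟩, hj⟩
    · intro h i
      obtain ⟨_, ⟨j, rfl⟩, hj⟩ := h _ ⟨i, rfl⟩
      exact ⟨j, hj⟩
  · constructor
    · rintro h _ ⟨i, rfl⟩
      obtain ⟨j, hj⟩ := h i
      exact ⟨_, ⟨j, rfl⟩, hj⟩
    · intro h i
      obtain ⟨_, ⟨j, rfl⟩, hj⟩ := h _ ⟨i, rfl⟩
      exact ⟨j, hj⟩

/-! ### The sums of copies of `g`, `*2`, `d`, `u` and `*` -/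

/-- The moves of the player `p` from the sum of `e` copies of `g`, `a` copies of `*2`, `b` copies of
`d`, `c` copies of `u` and `m` copies of `*`. -/
def Mv (p : Bool) (e a b c m e' a' b' c' m' : ℕ) : Prop :=
  (e = e' + 1 ∧ a' = a ∧ b' = b ∧ c' = c ∧ m' = m) ∨
  (e' = e ∧ a = a' + 1 ∧ b' = b ∧ c' = c ∧ m' = m) ∨
  (e' = e ∧ a = a' + 1 ∧ b' = b ∧ c' = c ∧ m' = m + 1) ∨
  (e' = e ∧ a' = a ∧ b = b' + 1 ∧ c' = c ∧ m' = m) ∨
  (e' = e ∧ a' = a ∧ b' = b ∧ c = c' + 1 ∧ m' = m) ∨
  (e' = e ∧ a' = a ∧ b' = b ∧ c' = c ∧ m = m' + 1) ∨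
  (p = true ∧ e = e' + 1 ∧ a' = a ∧ b' = b + 1 ∧ c' = c ∧ m' = m) ∨
  (p = true ∧ e = e' + 1 ∧ a' = a ∧ b' = b ∧ c' = c + 1 ∧ m' = m) ∨
  (p = true ∧ e' = e ∧ a' = a ∧ b' = b ∧ c = c' + 1 ∧ m' = m + 1) ∨
  (p = false ∧ e = e' + 1 ∧ a' = a + 1 ∧ b' = b ∧ c' = c ∧ m' = m) ∨
  (p = false ∧ e' = e ∧ a' = a ∧ b = b' + 1 ∧ c' = c ∧ m' = m + 1)

/-- `Is G e a b c m`: the game `G` is the sum of `e` copies of `g`, `a` copies of `*2`, `b` copies
of `d`, `c` copies of `u` and `m` copies of `*`. -/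
def Is : Game → ℕ → ℕ → ℕ → ℕ → ℕ → Prop
  | .mk _ opt, e, a, b, c, m => ∀ p,
      (∀ i, ∃ e' a' b' c' m', Mv p e a b c m e' a' b' c' m' ∧ Is (opt p i) e' a' b' c' m') ∧
      ∀ e' a' b' c' m', Mv p e a b c m e' a' b' c' m' → ∃ i, Is (opt p i) e' a' b' c' m'

theorem is_iff (G : Game) (e a b c m : ℕ) :
    Is G e a b c m ↔ ∀ p, (∀ G', Opt p G G' → ∃ e' a' b' c' m', Mv p e a b c m e' a' b' c' m' ∧ Is G' e' a' b' c' m') ∧
      ∀ e' a' b' c' m', Mv p e a b c m e' a' b' c' m' → ∃ G', Opt p G G' ∧ Is G' e' a' b' c' m' := by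
  rcases G with ⟨c, f⟩
  simp only [Opt, Is]
  refine forall_congr' fun p => and_congr ?_ ?_
  · constructor
    · rintro h _ ⟨i, rfl⟩
      exact h i
    · intro h i
      exact h _ ⟨i, rfl⟩
  · constructor
    · intro h e' a' b' c' m' hm
      obtain ⟨i, hi⟩ := h e' a' b' c' m' hm
      exact ⟨_, ⟨i, rfl⟩, hi⟩
    · intro h e' a' b' c' m' hm
      obtain ⟨_, ⟨i, rfl⟩, hi⟩ := h e' a' b' c' m' hm
      exact ⟨i, hi⟩

theorem is_ident : ∀ G H, Ident G H → ∀ e a b c m, Is G e a b c m → Is H e a b c m := by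
  intro G
  induction G using ind with
  | h G ih =>
    intro H hI e a b c m h
    rw [is_iff] at h ⊢
    rw [ident_iff] at hI
    intro p
    refine ⟨?_, ?_⟩
    · intro H' hH'
      obtain ⟨G', hG', hI'⟩ := (hI p).2 H' hH'
      obtain ⟨e', a', b', c', m', hm, hi⟩ := (h p).1 G' hG'
      exact ⟨e', a', b', c', m', hm, ih p G' hG' H' hI' _ _ _ _ _ hi⟩
    · intro e' a' b' c' m' hm
      obtain ⟨G', hG', hi⟩ := (h p).2 e' a' b' c' m' hm
      obtain ⟨H', hH', hI'⟩ := (hI p).1 G' hG'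
      exact ⟨H', hH', ih p G' hG' H' hI' _ _ _ _ _ hi⟩

theorem mv_add_left {p : Bool} {e a b c m e' a' b' c' m' : ℕ} (h : Mv p e a b c m e' a' b' c' m')
    (p1 p2 p3 p4 p5 : ℕ) :
    Mv p (e + p1) (a + p2) (b + p3) (c + p4) (m + p5) (e' + p1) (a' + p2) (b' + p3) (c' + p4) (m' + p5) := by
  unfold Mv at *
  rcases h with h | h | h | h | h | h | h | h | h | h | h
  · exact Or.inl (⟨by omega, by omega, by omega, by omega, by omega⟩)
  · exact Or.inr (Or.inl (⟨by omega, by omega, by omega, by omega, by omega⟩))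
  · exact Or.inr (Or.inr (Or.inl (⟨by omega, by omega, by omega, by omega, by omega⟩)))
  · exact Or.inr (Or.inr (Or.inr (Or.inl (⟨by omega, by omega, by omega, by omega, by omega⟩))))
  · exact Or.inr (Or.inr (Or.inr (Or.inr (Or.inl (⟨by omega, by omega, by omega, by omega, by omega⟩)))))
  · exact Or.inr (Or.inr (Or.inr (Or.inr (Or.inr (Or.inl (⟨by omega, by omega, by omega, by omega, by omega⟩))))))
  · exact Or.inr (Or.inr (Or.inr (Or.inr (Or.inr (Or.inr (Or.inl (⟨h.1, by omega, by omega, by omega, by omega, by omega⟩)))))))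
  · exact Or.inr (Or.inr (Or.inr (Or.inr (Or.inr (Or.inr (Or.inr (Or.inl (⟨h.1, by omega, by omega, by omega, by omega, by omega⟩))))))))
  · exact Or.inr (Or.inr (Or.inr (Or.inr (Or.inr (Or.inr (Or.inr (Or.inr (Or.inl (⟨h.1, by omega, by omega, by omega, by omega, by omega⟩)))))))))
  · exact Or.inr (Or.inr (Or.inr (Or.inr (Or.inr (Or.inr (Or.inr (Or.inr (Or.inr (Or.inl (⟨h.1, by omega, by omega, by omega, by omega, by omega⟩))))))))))
  · exact Or.inr (Or.inr (Or.inr (Or.inr (Or.inr (Or.inr (Or.inr (Or.inr (Or.inr (Or.inr (⟨h.1, by omega, by omega, by omega, by omega, by omega⟩))))))))))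

theorem mv_add_right {p : Bool} {e a b c m e' a' b' c' m' : ℕ} (h : Mv p e a b c m e' a' b' c' m')
    (p1 p2 p3 p4 p5 : ℕ) :
    Mv p (p1 + e) (p2 + a) (p3 + b) (p4 + c) (p5 + m) (p1 + e') (p2 + a') (p3 + b') (p4 + c') (p5 + m') := by
  have := mv_add_left h p1 p2 p3 p4 p5
  rwa [add_comm e p1, add_comm a p2, add_comm b p3, add_comm c p4, add_comm m p5, add_comm e' p1, add_comm a' p2, add_comm b' p3, add_comm c' p4, add_comm m' p5] at this

theorem mv_of_add {p : Bool} {e a b c m p1 p2 p3 p4 p5 r1 r2 r3 r4 r5 : ℕ}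
    (h : Mv p (e + p1) (a + p2) (b + p3) (c + p4) (m + p5) r1 r2 r3 r4 r5) :
    (∃ e' a' b' c' m', Mv p e a b c m e' a' b' c' m' ∧ r1 = e' + p1 ∧ r2 = a' + p2 ∧ r3 = b' + p3 ∧ r4 = c' + p4 ∧ r5 = m' + p5) ∨
    ∃ p1' p2' p3' p4' p5', Mv p p1 p2 p3 p4 p5 p1' p2' p3' p4' p5' ∧ r1 = e + p1' ∧ r2 = a + p2' ∧ r3 = b + p3' ∧ r4 = c + p4' ∧ r5 = m + p5' := by
  unfold Mv at *
  rcases h with h | h | h | h | h | h | h | h | h | h | h
  · by_cases h0 : e = 0
    · exact Or.inr ⟨r1 - e, r2 - a, r3 - b, r4 - c, r5 - m, Or.inl (⟨by omega, by omega, by omega, by omega, by omega⟩),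
        by omega, by omega, by omega, by omega, by omega⟩
    · exact Or.inl ⟨r1 - p1, r2 - p2, r3 - p3, r4 - p4, r5 - p5, Or.inl (⟨by omega, by omega, by omega, by omega, by omega⟩),
        by omega, by omega, by omega, by omega, by omega⟩
  · by_cases h0 : a = 0
    · exact Or.inr ⟨r1 - e, r2 - a, r3 - b, r4 - c, r5 - m, Or.inr (Or.inl (⟨by omega, by omega, by omega, by omega, by omega⟩)),
        by omega, by omega, by omega, by omega, by omega⟩
    · exact Or.inl ⟨r1 - p1, r2 - p2, r3 - p3, r4 - p4, r5 - p5, Or.inr (Or.inl (⟨by omega, by omega, by omega, by omega, by omega⟩)),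
        by omega, by omega, by omega, by omega, by omega⟩
  · by_cases h0 : a = 0
    · exact Or.inr ⟨r1 - e, r2 - a, r3 - b, r4 - c, r5 - m, Or.inr (Or.inr (Or.inl (⟨by omega, by omega, by omega, by omega, by omega⟩))),
        by omega, by omega, by omega, by omega, by omega⟩
    · exact Or.inl ⟨r1 - p1, r2 - p2, r3 - p3, r4 - p4, r5 - p5, Or.inr (Or.inr (Or.inl (⟨by omega, by omega, by omega, by omega, by omega⟩))),
        by omega, by omega, by omega, by omega, by omega⟩
  · by_cases h0 : b = 0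
    · exact Or.inr ⟨r1 - e, r2 - a, r3 - b, r4 - c, r5 - m, Or.inr (Or.inr (Or.inr (Or.inl (⟨by omega, by omega, by omega, by omega, by omega⟩)))),
        by omega, by omega, by omega, by omega, by omega⟩
    · exact Or.inl ⟨r1 - p1, r2 - p2, r3 - p3, r4 - p4, r5 - p5, Or.inr (Or.inr (Or.inr (Or.inl (⟨by omega, by omega, by omega, by omega, by omega⟩)))),
        by omega, by omega, by omega, by omega, by omega⟩
  · by_cases h0 : c = 0
    · exact Or.inr ⟨r1 - e, r2 - a, r3 - b, r4 - c, r5 - m, Or.inr (Or.inr (Or.inr (Or.inr (Or.inl (⟨by omega, by omega, by omega, by omega, by omega⟩))))),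
        by omega, by omega, by omega, by omega, by omega⟩
    · exact Or.inl ⟨r1 - p1, r2 - p2, r3 - p3, r4 - p4, r5 - p5, Or.inr (Or.inr (Or.inr (Or.inr (Or.inl (⟨by omega, by omega, by omega, by omega, by omega⟩))))),
        by omega, by omega, by omega, by omega, by omega⟩
  · by_cases h0 : m = 0
    · exact Or.inr ⟨r1 - e, r2 - a, r3 - b, r4 - c, r5 - m, Or.inr (Or.inr (Or.inr (Or.inr (Or.inr (Or.inl (⟨by omega, by omega, by omega, by omega, by omega⟩)))))),
        by omega, by omega, by omega, by omega, by omega⟩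
    · exact Or.inl ⟨r1 - p1, r2 - p2, r3 - p3, r4 - p4, r5 - p5, Or.inr (Or.inr (Or.inr (Or.inr (Or.inr (Or.inl (⟨by omega, by omega, by omega, by omega, by omega⟩)))))),
        by omega, by omega, by omega, by omega, by omega⟩
  · by_cases h0 : e = 0
    · exact Or.inr ⟨r1 - e, r2 - a, r3 - b, r4 - c, r5 - m, Or.inr (Or.inr (Or.inr (Or.inr (Or.inr (Or.inr (Or.inl (⟨h.1, by omega, by omega, by omega, by omega, by omega⟩))))))),
        by omega, by omega, by omega, by omega, by omega⟩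
    · exact Or.inl ⟨r1 - p1, r2 - p2, r3 - p3, r4 - p4, r5 - p5, Or.inr (Or.inr (Or.inr (Or.inr (Or.inr (Or.inr (Or.inl (⟨h.1, by omega, by omega, by omega, by omega, by omega⟩))))))),
        by omega, by omega, by omega, by omega, by omega⟩
  · by_cases h0 : e = 0
    · exact Or.inr ⟨r1 - e, r2 - a, r3 - b, r4 - c, r5 - m, Or.inr (Or.inr (Or.inr (Or.inr (Or.inr (Or.inr (Or.inr (Or.inl (⟨h.1, by omega, by omega, by omega, by omega, by omega⟩)))))))),
        by omega, by omega, by omega, by omega, by omega⟩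
    · exact Or.inl ⟨r1 - p1, r2 - p2, r3 - p3, r4 - p4, r5 - p5, Or.inr (Or.inr (Or.inr (Or.inr (Or.inr (Or.inr (Or.inr (Or.inl (⟨h.1, by omega, by omega, by omega, by omega, by omega⟩)))))))),
        by omega, by omega, by omega, by omega, by omega⟩
  · by_cases h0 : c = 0
    · exact Or.inr ⟨r1 - e, r2 - a, r3 - b, r4 - c, r5 - m, Or.inr (Or.inr (Or.inr (Or.inr (Or.inr (Or.inr (Or.inr (Or.inr (Or.inl (⟨h.1, by omega, by omega, by omega, by omega, by omega⟩))))))))),
        by omega, by omega, by omega, by omega, by omega⟩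
    · exact Or.inl ⟨r1 - p1, r2 - p2, r3 - p3, r4 - p4, r5 - p5, Or.inr (Or.inr (Or.inr (Or.inr (Or.inr (Or.inr (Or.inr (Or.inr (Or.inl (⟨h.1, by omega, by omega, by omega, by omega, by omega⟩))))))))),
        by omega, by omega, by omega, by omega, by omega⟩
  · by_cases h0 : e = 0
    · exact Or.inr ⟨r1 - e, r2 - a, r3 - b, r4 - c, r5 - m, Or.inr (Or.inr (Or.inr (Or.inr (Or.inr (Or.inr (Or.inr (Or.inr (Or.inr (Or.inl (⟨h.1, by omega, by omega, by omega, by omega, by omega⟩)))))))))),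
        by omega, by omega, by omega, by omega, by omega⟩
    · exact Or.inl ⟨r1 - p1, r2 - p2, r3 - p3, r4 - p4, r5 - p5, Or.inr (Or.inr (Or.inr (Or.inr (Or.inr (Or.inr (Or.inr (Or.inr (Or.inr (Or.inl (⟨h.1, by omega, by omega, by omega, by omega, by omega⟩)))))))))),
        by omega, by omega, by omega, by omega, by omega⟩
  · by_cases h0 : b = 0
    · exact Or.inr ⟨r1 - e, r2 - a, r3 - b, r4 - c, r5 - m, Or.inr (Or.inr (Or.inr (Or.inr (Or.inr (Or.inr (Or.inr (Or.inr (Or.inr (Or.inr (⟨h.1, by omega, by omega, by omega, by omega, by omega⟩)))))))))),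
        by omega, by omega, by omega, by omega, by omega⟩
    · exact Or.inl ⟨r1 - p1, r2 - p2, r3 - p3, r4 - p4, r5 - p5, Or.inr (Or.inr (Or.inr (Or.inr (Or.inr (Or.inr (Or.inr (Or.inr (Or.inr (Or.inr (⟨h.1, by omega, by omega, by omega, by omega, by omega⟩)))))))))),
        by omega, by omega, by omega, by omega, by omega⟩

theorem is_add : ∀ G H e a b c m p1 p2 p3 p4 p5, Is G e a b c m → Is H p1 p2 p3 p4 p5 →
    Is (add G H) (e + p1) (a + p2) (b + p3) (c + p4) (m + p5) := by
  intro G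
  induction G using ind with
  | h G ihG =>
    intro H
    induction H using ind with
    | h H ihH =>
      intro e a b c m p1 p2 p3 p4 p5 hG hH
      have hG' := (is_iff G e a b c m).1 hG
      have hH' := (is_iff H p1 p2 p3 p4 p5).1 hH
      rw [is_iff]
      intro p
      refine ⟨?_, ?_⟩
      · intro K hK
        rw [opt_add] at hK
        rcases hK with ⟨G', hO, rfl⟩ | ⟨H', hO, rfl⟩
        · obtain ⟨e', a', b', c', m', hm, hi⟩ := (hG' p).1 G' hO
          exact ⟨_, _, _, _, _, mv_add_left hm p1 p2 p3 p4 p5,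
            ihG p G' hO H _ _ _ _ _ _ _ _ _ _ hi hH⟩
        · obtain ⟨e', a', b', c', m', hm, hi⟩ := (hH' p).1 H' hO
          exact ⟨_, _, _, _, _, mv_add_right hm e a b c m,
            ihH p H' hO _ _ _ _ _ _ _ _ _ _ hG hi⟩
      · intro r1 r2 r3 r4 r5 hm
        rcases mv_of_add hm with ⟨e', a', b', c', m', hm', rfl, rfl, rfl, rfl, rfl⟩ |
          ⟨e', a', b', c', m', hm', rfl, rfl, rfl, rfl, rfl⟩
        · obtain ⟨G', hO, hi⟩ := (hG' p).2 _ _ _ _ _ hm'
          exact ⟨add G' H, (opt_add _ _ _ _).2 (Or.inl ⟨G', hO, rfl⟩),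
            ihG p G' hO H _ _ _ _ _ _ _ _ _ _ hi hH⟩
        · obtain ⟨H', hO, hi⟩ := (hH' p).2 _ _ _ _ _ hm'
          exact ⟨add G H', (opt_add _ _ _ _).2 (Or.inr ⟨H', hO, rfl⟩),
            ihH p H' hO _ _ _ _ _ _ _ _ _ _ hG hi⟩

/-! ### The outcomes -/

/-- `1` for misere play and sums in which the parity is counted differently. -/
def fl (mis : Bool) (e a : ℕ) : ℕ := if mis = true ∧ a = 0 ∧ e ≤ 1 then 1 else 0

/-- Left, moving first, wins if the number of `u` minus the number of `d` is at least `thL`. -/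
def thL (e a q : ℕ) : ℤ :=
  if e = 0 then (if a % 2 = 1 then 0 else if q % 2 = 0 then 1 else -1)
  else if e = 1 then (if a % 2 = 1 ∧ q % 2 = 1 then 0 else -1)
  else if (e + q) % 2 = 0 then 1 - e else -e

/-- Right, moving first, wins if the number of `u` minus the number of `d` is less than `thR`. -/
def thR (e a q : ℕ) : ℤ :=
  if e = 0 then (if a % 2 = 1 then 1 else if q % 2 = 0 then 0 else 2)
  else if e = 1 then (if q % 2 = 0 then 1 else 0)
  else if (e + q) % 2 = 0 then 1 - e else 2 - e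

/-- The player `p`, moving first in the sum, wins. -/
def W (mis p : Bool) (e a b c m : ℕ) : Prop :=
  if p = true then thL e a (b + c + m + fl mis e a) ≤ (c : ℤ) - b
  else (c : ℤ) - b < thR e a (b + c + m + fl mis e a)

theorem W_L (mis : Bool) (e a b c m : ℕ) :
    W mis true e a b c m ↔ thL e a (b + c + m + fl mis e a) ≤ (c : ℤ) - b := by simp [W]

theorem W_R (mis : Bool) (e a b c m : ℕ) :
    W mis false e a b c m ↔ (c : ℤ) - b < thR e a (b + c + m + fl mis e a) := by simp [W]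

theorem fl_cases (mis : Bool) (e a : ℕ) :
    (fl mis e a = 1 ∧ mis.toNat = 1 ∧ a = 0 ∧ e ≤ 1) ∨
      (fl mis e a = 0 ∧ (mis.toNat = 0 ∨ a ≠ 0 ∨ 2 ≤ e)) := by
  unfold fl
  cases mis
  · simp
  · simp
    by_cases h : a = 0 <;> by_cases h' : e ≤ 1 <;> simp [h, h']
    omega

theorem thL_cases (e a q : ℕ) :
    (e = 0 ∧ a % 2 = 1 ∧ thL e a q = 0) ∨ (e = 0 ∧ a % 2 = 0 ∧ q % 2 = 0 ∧ thL e a q = 1) ∨
    (e = 0 ∧ a % 2 = 0 ∧ q % 2 = 1 ∧ thL e a q = -1) ∨
    (e = 1 ∧ a % 2 = 1 ∧ q % 2 = 1 ∧ thL e a q = 0) ∨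
    (e = 1 ∧ (a % 2 = 0 ∨ q % 2 = 0) ∧ thL e a q = -1) ∨
    (2 ≤ e ∧ (e + q) % 2 = 0 ∧ thL e a q = 1 - e) ∨
    (2 ≤ e ∧ (e + q) % 2 = 1 ∧ thL e a q = -e) := by
  unfold thL
  by_cases h0 : e = 0
  · rw [if_pos h0]
    by_cases ha : a % 2 = 1
    · rw [if_pos ha]
      exact Or.inl ⟨h0, ha, rfl⟩
    · rw [if_neg ha]
      by_cases hq : q % 2 = 0
      · rw [if_pos hq]
        exact Or.inr (Or.inl ⟨h0, by omega, hq, rfl⟩)
      · rw [if_neg hq]
        exact Or.inr (Or.inr (Or.inl ⟨h0, by omega, by omega, rfl⟩))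
  · rw [if_neg h0]
    by_cases h1 : e = 1
    · rw [if_pos h1]
      by_cases ha : a % 2 = 1 ∧ q % 2 = 1
      · rw [if_pos ha]
        exact Or.inr (Or.inr (Or.inr (Or.inl ⟨h1, ha.1, ha.2, rfl⟩)))
      · rw [if_neg ha]
        exact Or.inr (Or.inr (Or.inr (Or.inr (Or.inl ⟨h1, by omega, rfl⟩))))
    · rw [if_neg h1]
      by_cases hq : (e + q) % 2 = 0
      · rw [if_pos hq]
        exact Or.inr (Or.inr (Or.inr (Or.inr (Or.inr (Or.inl ⟨by omega, hq, rfl⟩)))))
      · rw [if_neg hq]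
        exact Or.inr (Or.inr (Or.inr (Or.inr (Or.inr (Or.inr ⟨by omega, by omega, rfl⟩)))))

theorem thR_cases (e a q : ℕ) :
    (e = 0 ∧ a % 2 = 1 ∧ thR e a q = 1) ∨ (e = 0 ∧ a % 2 = 0 ∧ q % 2 = 0 ∧ thR e a q = 0) ∨
    (e = 0 ∧ a % 2 = 0 ∧ q % 2 = 1 ∧ thR e a q = 2) ∨
    (e = 1 ∧ q % 2 = 0 ∧ thR e a q = 1) ∨ (e = 1 ∧ q % 2 = 1 ∧ thR e a q = 0) ∨
    (2 ≤ e ∧ (e + q) % 2 = 0 ∧ thR e a q = 1 - e) ∨
    (2 ≤ e ∧ (e + q) % 2 = 1 ∧ thR e a q = 2 - e) := by
  unfold thR
  by_cases h0 : e = 0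
  · rw [if_pos h0]
    by_cases ha : a % 2 = 1
    · rw [if_pos ha]
      exact Or.inl ⟨h0, ha, rfl⟩
    · rw [if_neg ha]
      by_cases hq : q % 2 = 0
      · rw [if_pos hq]
        exact Or.inr (Or.inl ⟨h0, by omega, hq, rfl⟩)
      · rw [if_neg hq]
        exact Or.inr (Or.inr (Or.inl ⟨h0, by omega, by omega, rfl⟩))
  · rw [if_neg h0]
    by_cases h1 : e = 1
    · rw [if_pos h1]
      by_cases hq : q % 2 = 0
      · rw [if_pos hq]
        exact Or.inr (Or.inr (Or.inr (Or.inl ⟨h1, hq, rfl⟩)))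
      · rw [if_neg hq]
        exact Or.inr (Or.inr (Or.inr (Or.inr (Or.inl ⟨h1, by omega, rfl⟩))))
    · rw [if_neg h1]
      by_cases hq : (e + q) % 2 = 0
      · rw [if_pos hq]
        exact Or.inr (Or.inr (Or.inr (Or.inr (Or.inr (Or.inl ⟨by omega, hq, rfl⟩)))))
      · rw [if_neg hq]
        exact Or.inr (Or.inr (Or.inr (Or.inr (Or.inr (Or.inr ⟨by omega, by omega, rfl⟩)))))

theorem ne_of_mv {p : Bool} {e a b c m e' a' b' c' m' : ℕ} (h : Mv p e a b c m e' a' b' c' m') :
    e + a + b + c + m ≠ 0 := by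
  unfold Mv at h
  rcases h with h | h | h | h | h | h | h | h | h | h | h <;> omega

/-- Each move to a position lost for the opponent is made from a winning position (Left). -/
theorem back_L (mis : Bool) {e a b c m e' a' b' c' m' : ℕ}
    (hm : Mv true e a b c m e' a' b' c' m') (h : ¬ W mis false e' a' b' c' m') :
    W mis true e a b c m := by
  rw [W_R] at h
  rw [W_L]
  have h1 := fl_cases mis e a
  have h2 := fl_cases mis e' a'
  have h3 := thL_cases e a (b + c + m + fl mis e a)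
  have h4 := thR_cases e' a' (b' + c' + m' + fl mis e' a')
  generalize fl mis e a = f at *
  generalize fl mis e' a' = f' at *
  generalize thL e a (b + c + m + f) = t at *
  generalize thR e' a' (b' + c' + m' + f') = t' at *
  unfold Mv at hm
  rcases hm with hm | hm | hm | hm | hm | hm | hm | hm | hm | hm | hm
  · obtain ⟨rfl, rfl, rfl, rfl, rfl⟩ := hm
    rcases h3 with h3 | h3 | h3 | h3 | h3 | h3 | h3 <;> omega
  · obtain ⟨rfl, rfl, rfl, rfl, rfl⟩ := hm
    rcases h3 with h3 | h3 | h3 | h3 | h3 | h3 | h3 <;> omega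
  · obtain ⟨rfl, rfl, rfl, rfl, rfl⟩ := hm
    rcases h3 with h3 | h3 | h3 | h3 | h3 | h3 | h3 <;> omega
  · obtain ⟨rfl, rfl, rfl, rfl, rfl⟩ := hm
    rcases h3 with h3 | h3 | h3 | h3 | h3 | h3 | h3 <;> omega
  · obtain ⟨rfl, rfl, rfl, rfl, rfl⟩ := hm
    rcases h3 with h3 | h3 | h3 | h3 | h3 | h3 | h3 <;> omega
  · obtain ⟨rfl, rfl, rfl, rfl, rfl⟩ := hm
    rcases h3 with h3 | h3 | h3 | h3 | h3 | h3 | h3 <;> omega
  · obtain ⟨-, rfl, rfl, rfl, rfl, rfl⟩ := hm
    rcases h3 with h3 | h3 | h3 | h3 | h3 | h3 | h3 <;> omega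
  · obtain ⟨-, rfl, rfl, rfl, rfl, rfl⟩ := hm
    rcases h3 with h3 | h3 | h3 | h3 | h3 | h3 | h3 <;> omega
  · obtain ⟨-, rfl, rfl, rfl, rfl, rfl⟩ := hm
    rcases h3 with h3 | h3 | h3 | h3 | h3 | h3 | h3 <;> omega
  · exact absurd hm.1 (by decide)
  · exact absurd hm.1 (by decide)

/-- Each move to a position lost for the opponent is made from a winning position (Right). -/
theorem back_R (mis : Bool) {e a b c m e' a' b' c' m' : ℕ}
    (hm : Mv false e a b c m e' a' b' c' m') (h : ¬ W mis true e' a' b' c' m') :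
    W mis false e a b c m := by
  rw [W_L] at h
  rw [W_R]
  have h1 := fl_cases mis e a
  have h2 := fl_cases mis e' a'
  have h3 := thR_cases e a (b + c + m + fl mis e a)
  have h4 := thL_cases e' a' (b' + c' + m' + fl mis e' a')
  generalize fl mis e a = f at *
  generalize fl mis e' a' = f' at *
  generalize thR e a (b + c + m + f) = t at *
  generalize thL e' a' (b' + c' + m' + f') = t' at *
  unfold Mv at hm
  rcases hm with hm | hm | hm | hm | hm | hm | hm | hm | hm | hm | hm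
  · obtain ⟨rfl, rfl, rfl, rfl, rfl⟩ := hm
    rcases h3 with h3 | h3 | h3 | h3 | h3 | h3 | h3 <;> omega
  · obtain ⟨rfl, rfl, rfl, rfl, rfl⟩ := hm
    rcases h3 with h3 | h3 | h3 | h3 | h3 | h3 | h3 <;> omega
  · obtain ⟨rfl, rfl, rfl, rfl, rfl⟩ := hm
    rcases h3 with h3 | h3 | h3 | h3 | h3 | h3 | h3 <;> omega
  · obtain ⟨rfl, rfl, rfl, rfl, rfl⟩ := hm
    rcases h3 with h3 | h3 | h3 | h3 | h3 | h3 | h3 <;> omega
  · obtain ⟨rfl, rfl, rfl, rfl, rfl⟩ := hm
    rcases h3 with h3 | h3 | h3 | h3 | h3 | h3 | h3 <;> omega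
  · obtain ⟨rfl, rfl, rfl, rfl, rfl⟩ := hm
    rcases h3 with h3 | h3 | h3 | h3 | h3 | h3 | h3 <;> omega
  · exact absurd hm.1 (by decide)
  · exact absurd hm.1 (by decide)
  · exact absurd hm.1 (by decide)
  · obtain ⟨-, rfl, rfl, rfl, rfl, rfl⟩ := hm
    rcases h3 with h3 | h3 | h3 | h3 | h3 | h3 | h3 <;> omega
  · obtain ⟨-, rfl, rfl, rfl, rfl, rfl⟩ := hm
    rcases h3 with h3 | h3 | h3 | h3 | h3 | h3 | h3 <;> omega

theorem fwd_L (mis : Bool) (e a b c m : ℕ) (h : W mis true e a b c m)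
    (h0 : ¬ (mis.toNat = 1 ∧ e + a + b + c + m = 0)) :
    ∃ e' a' b' c' m', Mv true e a b c m e' a' b' c' m' ∧ ¬ W mis false e' a' b' c' m' := by
  rw [W_L] at h
  have h1 := fl_cases mis e a
  have h3 := thL_cases e a (b + c + m + fl mis e a)
  by_cases he2 : 2 ≤ e
  · by_cases hb : 1 ≤ b
    · refine ⟨e, a, b - 1, c, m, Or.inr (Or.inr (Or.inr (Or.inl (⟨by omega, by omega, by omega, by omega, by omega⟩)))), ?_⟩
      rw [W_R]
      have h5 := fl_cases mis e a
      have h4 := thR_cases e a ((b - 1) + c + m + fl mis e a)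
      omega
    · refine ⟨e - 1, a, b, c + 1, m, Or.inr (Or.inr (Or.inr (Or.inr (Or.inr (Or.inr (Or.inr (Or.inl (⟨rfl, by omega, by omega, by omega, by omega, by omega⟩)))))))), ?_⟩
      rw [W_R]
      have h5 := fl_cases mis (e - 1) a
      have h4 := thR_cases (e - 1) a (b + (c + 1) + m + fl mis (e - 1) a)
      omega
  · by_cases he1 : e = 1
    · by_cases hq : (b + c + m + fl mis e a) % 2 = 0
      · by_cases hx : c < b
        · refine ⟨e, a, b - 1, c, m, Or.inr (Or.inr (Or.inr (Or.inl (⟨by omega, by omega, by omega, by omega, by omega⟩)))), ?_⟩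
          rw [W_R]
          have h5 := fl_cases mis e a
          have h4 := thR_cases e a ((b - 1) + c + m + fl mis e a)
          omega
        · by_cases ha : a % 2 = 0
          · refine ⟨e - 1, a, b, c, m, Or.inl (⟨by omega, by omega, by omega, by omega, by omega⟩), ?_⟩
            rw [W_R]
            have h5 := fl_cases mis (e - 1) a
            have h4 := thR_cases (e - 1) a (b + c + m + fl mis (e - 1) a)
            omega
          · refine ⟨e - 1, a, b, c + 1, m, Or.inr (Or.inr (Or.inr (Or.inr (Or.inr (Or.inr (Or.inr (Or.inl (⟨rfl, by omega, by omega, by omega, by omega, by omega⟩)))))))), ?_⟩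
            rw [W_R]
            have h5 := fl_cases mis (e - 1) a
            have h4 := thR_cases (e - 1) a (b + (c + 1) + m + fl mis (e - 1) a)
            omega
      · refine ⟨e - 1, a, b, c + 1, m, Or.inr (Or.inr (Or.inr (Or.inr (Or.inr (Or.inr (Or.inr (Or.inl (⟨rfl, by omega, by omega, by omega, by omega, by omega⟩)))))))), ?_⟩
        rw [W_R]
        have h5 := fl_cases mis (e - 1) a
        have h4 := thR_cases (e - 1) a (b + (c + 1) + m + fl mis (e - 1) a)
        omega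
    · by_cases ha : a % 2 = 1
      · by_cases hq : (b + c + m + fl mis e (a - 1)) % 2 = 0
        · refine ⟨e, a - 1, b, c, m, Or.inr (Or.inl (⟨by omega, by omega, by omega, by omega, by omega⟩)), ?_⟩
          rw [W_R]
          have h5 := fl_cases mis e (a - 1)
          have h4 := thR_cases e (a - 1) (b + c + m + fl mis e (a - 1))
          omega
        · refine ⟨e, a - 1, b, c, m + 1, Or.inr (Or.inr (Or.inl (⟨by omega, by omega, by omega, by omega, by omega⟩))), ?_⟩
          rw [W_R]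
          have h5 := fl_cases mis e (a - 1)
          have h4 := thR_cases e (a - 1) (b + c + (m + 1) + fl mis e (a - 1))
          omega
      · by_cases hq : (b + c + m + fl mis e a) % 2 = 0
        · refine ⟨e, a, b, c - 1, m + 1, Or.inr (Or.inr (Or.inr (Or.inr (Or.inr (Or.inr (Or.inr (Or.inr (Or.inl (⟨rfl, by omega, by omega, by omega, by omega, by omega⟩))))))))), ?_⟩
          rw [W_R]
          have h5 := fl_cases mis e a
          have h4 := thR_cases e a (b + (c - 1) + (m + 1) + fl mis e a)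
          omega
        · by_cases hx : b < c
          · refine ⟨e, a, b, c - 1, m, Or.inr (Or.inr (Or.inr (Or.inr (Or.inl (⟨by omega, by omega, by omega, by omega, by omega⟩))))), ?_⟩
            rw [W_R]
            have h5 := fl_cases mis e a
            have h4 := thR_cases e a (b + (c - 1) + m + fl mis e a)
            omega
          · by_cases hb : 1 ≤ b
            · refine ⟨e, a, b - 1, c, m, Or.inr (Or.inr (Or.inr (Or.inl (⟨by omega, by omega, by omega, by omega, by omega⟩)))), ?_⟩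
              rw [W_R]
              have h5 := fl_cases mis e a
              have h4 := thR_cases e a ((b - 1) + c + m + fl mis e a)
              omega
            · refine ⟨e, a, b, c, m - 1, Or.inr (Or.inr (Or.inr (Or.inr (Or.inr (Or.inl (⟨by omega, by omega, by omega, by omega, by omega⟩)))))), ?_⟩
              rw [W_R]
              have h5 := fl_cases mis e a
              have h4 := thR_cases e a (b + c + (m - 1) + fl mis e a)
              omega

theorem fwd_R (mis : Bool) (e a b c m : ℕ) (h : W mis false e a b c m)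
    (h0 : ¬ (mis.toNat = 1 ∧ e + a + b + c + m = 0)) :
    ∃ e' a' b' c' m', Mv false e a b c m e' a' b' c' m' ∧ ¬ W mis true e' a' b' c' m' := by
  rw [W_R] at h
  have h1 := fl_cases mis e a
  have h3 := thR_cases e a (b + c + m + fl mis e a)
  by_cases he3 : 3 ≤ e
  · refine ⟨e - 1, a, b, c, m, Or.inl (⟨by omega, by omega, by omega, by omega, by omega⟩), ?_⟩
    rw [W_L]
    have h5 := fl_cases mis (e - 1) a
    have h4 := thL_cases (e - 1) a (b + c + m + fl mis (e - 1) a)
    omega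
  · by_cases he2 : e = 2
    · by_cases ha : a % 2 = 1
      · refine ⟨e - 1, a, b, c, m, Or.inl (⟨by omega, by omega, by omega, by omega, by omega⟩), ?_⟩
        rw [W_L]
        have h5 := fl_cases mis (e - 1) a
        have h4 := thL_cases (e - 1) a (b + c + m + fl mis (e - 1) a)
        omega
      · refine ⟨e - 1, a + 1, b, c, m, Or.inr (Or.inr (Or.inr (Or.inr (Or.inr (Or.inr (Or.inr (Or.inr (Or.inr (Or.inl (⟨rfl, by omega, by omega, by omega, by omega, by omega⟩)))))))))), ?_⟩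
        rw [W_L]
        have h5 := fl_cases mis (e - 1) (a + 1)
        have h4 := thL_cases (e - 1) (a + 1) (b + c + m + fl mis (e - 1) (a + 1))
        omega
    · by_cases he1 : e = 1
      · by_cases ha : (a + (b + c + m + fl mis e a)) % 2 = 0
        · refine ⟨e - 1, a, b, c, m, Or.inl (⟨by omega, by omega, by omega, by omega, by omega⟩), ?_⟩
          rw [W_L]
          have h5 := fl_cases mis (e - 1) a
          have h4 := thL_cases (e - 1) a (b + c + m + fl mis (e - 1) a)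
          omega
        · refine ⟨e - 1, a + 1, b, c, m, Or.inr (Or.inr (Or.inr (Or.inr (Or.inr (Or.inr (Or.inr (Or.inr (Or.inr (Or.inl (⟨rfl, by omega, by omega, by omega, by omega, by omega⟩)))))))))), ?_⟩
          rw [W_L]
          have h5 := fl_cases mis (e - 1) (a + 1)
          have h4 := thL_cases (e - 1) (a + 1) (b + c + m + fl mis (e - 1) (a + 1))
          omega
      · by_cases ha : a % 2 = 1
        · by_cases hq : (b + c + m + fl mis e (a - 1)) % 2 = 0
          · refine ⟨e, a - 1, b, c, m, Or.inr (Or.inl (⟨by omega, by omega, by omega, by omega, by omega⟩)), ?_⟩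
            rw [W_L]
            have h5 := fl_cases mis e (a - 1)
            have h4 := thL_cases e (a - 1) (b + c + m + fl mis e (a - 1))
            omega
          · refine ⟨e, a - 1, b, c, m + 1, Or.inr (Or.inr (Or.inl (⟨by omega, by omega, by omega, by omega, by omega⟩))), ?_⟩
            rw [W_L]
            have h5 := fl_cases mis e (a - 1)
            have h4 := thL_cases e (a - 1) (b + c + (m + 1) + fl mis e (a - 1))
            omega
        · by_cases hq : (b + c + m + fl mis e a) % 2 = 0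
          · refine ⟨e, a, b - 1, c, m + 1, Or.inr (Or.inr (Or.inr (Or.inr (Or.inr (Or.inr (Or.inr (Or.inr (Or.inr (Or.inr (⟨rfl, by omega, by omega, by omega, by omega, by omega⟩)))))))))), ?_⟩
            rw [W_L]
            have h5 := fl_cases mis e a
            have h4 := thL_cases e a ((b - 1) + c + (m + 1) + fl mis e a)
            omega
          · by_cases hx : c < b
            · refine ⟨e, a, b - 1, c, m, Or.inr (Or.inr (Or.inr (Or.inl (⟨by omega, by omega, by omega, by omega, by omega⟩)))), ?_⟩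
              rw [W_L]
              have h5 := fl_cases mis e a
              have h4 := thL_cases e a ((b - 1) + c + m + fl mis e a)
              omega
            · by_cases hb : 1 ≤ c
              · refine ⟨e, a, b, c - 1, m, Or.inr (Or.inr (Or.inr (Or.inr (Or.inl (⟨by omega, by omega, by omega, by omega, by omega⟩))))), ?_⟩
                rw [W_L]
                have h5 := fl_cases mis e a
                have h4 := thL_cases e a (b + (c - 1) + m + fl mis e a)
                omega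
              · refine ⟨e, a, b, c, m - 1, Or.inr (Or.inr (Or.inr (Or.inr (Or.inr (Or.inl (⟨by omega, by omega, by omega, by omega, by omega⟩)))))), ?_⟩
                rw [W_L]
                have h5 := fl_cases mis e a
                have h4 := thL_cases e a (b + c + (m - 1) + fl mis e a)
                omega

theorem exists_mv (p : Bool) (e a b c m : ℕ) (h : e + a + b + c + m ≠ 0) :
    ∃ e' a' b' c' m', Mv p e a b c m e' a' b' c' m' := by
  by_cases he : e = 0
  · by_cases ha : a = 0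
    · by_cases hb : b = 0
      · by_cases hc : c = 0
        · exact ⟨e, a, b, c, m - 1, Or.inr (Or.inr (Or.inr (Or.inr (Or.inr (Or.inl (⟨by omega, by omega, by omega, by omega, by omega⟩))))))⟩
        · exact ⟨e, a, b, c - 1, m, Or.inr (Or.inr (Or.inr (Or.inr (Or.inl (⟨by omega, by omega, by omega, by omega, by omega⟩)))))⟩
      · exact ⟨e, a, b - 1, c, m, Or.inr (Or.inr (Or.inr (Or.inl (⟨by omega, by omega, by omega, by omega, by omega⟩))))⟩
    · exact ⟨e, a - 1, b, c, m, Or.inr (Or.inl (⟨by omega, by omega, by omega, by omega, by omega⟩))⟩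
  · exact ⟨e - 1, a, b, c, m, Or.inl (⟨by omega, by omega, by omega, by omega, by omega⟩)⟩

theorem W_rec (mis p : Bool) (e a b c m : ℕ) :
    W mis p e a b c m ↔
      (mis = true ∧ ¬ ∃ e' a' b' c' m', Mv p e a b c m e' a' b' c' m') ∨
      ∃ e' a' b' c' m', Mv p e a b c m e' a' b' c' m' ∧ ¬ W mis (!p) e' a' b' c' m' := by
  constructor
  · intro h
    by_cases h0 : mis.toNat = 1 ∧ e + a + b + c + m = 0
    · left
      refine ⟨by cases mis <;> simp at h0 ⊢, ?_⟩
      rintro ⟨e', a', b', c', m', hm⟩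
      exact ne_of_mv hm h0.2
    · right
      cases p with
      | true => exact fwd_L mis e a b c m h h0
      | false => exact fwd_R mis e a b c m h h0
  · rintro (⟨hmis, h⟩ | ⟨e', a', b', c', m', hm, h⟩)
    · have h0 : e + a + b + c + m = 0 := by
        by_contra hc
        exact h (exists_mv p e a b c m hc)
      obtain ⟨rfl, rfl, rfl, rfl, rfl⟩ : e = 0 ∧ a = 0 ∧ b = 0 ∧ c = 0 ∧ m = 0 := by omega
      subst hmis
      cases p with
      | true => simp [W, thL, fl]
      | false => simp [W, thR, fl]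
    · cases p with
      | true => exact back_L mis hm h
      | false => exact back_R mis hm h

theorem wins_is (mis : Bool) : ∀ G p e a b c m, Is G e a b c m →
    (Wins mis G p ↔ W mis p e a b c m) := by
  intro G
  induction G using ind with
  | h G ih =>
    intro p e a b c m h
    rw [is_iff] at h
    rw [wins_iff, W_rec]
    refine or_congr (and_congr Iff.rfl (not_congr ?_)) ?_
    · constructor
      · rintro ⟨G', hO⟩
        obtain ⟨e', a', b', c', m', hm, -⟩ := (h p).1 G' hO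
        exact ⟨e', a', b', c', m', hm⟩
      · rintro ⟨e', a', b', c', m', hm⟩
        obtain ⟨G', hO, -⟩ := (h p).2 _ _ _ _ _ hm
        exact ⟨G', hO⟩
    · constructor
      · rintro ⟨G', hO, hw⟩
        obtain ⟨e', a', b', c', m', hm, hi⟩ := (h p).1 G' hO
        exact ⟨e', a', b', c', m', hm, by rwa [← ih p G' hO _ _ _ _ _ _ hi]⟩
      · rintro ⟨e', a', b', c', m', hm, hw⟩
        obtain ⟨G', hO, hi⟩ := (h p).2 _ _ _ _ _ hm
        exact ⟨G', hO, by rwa [ih p G' hO _ _ _ _ _ _ hi]⟩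

theorem outcome_congr {mis mis' : Bool} {G H : Game}
    (h : ∀ p, Wins mis G p ↔ Wins mis' H p) : outcome mis G = outcome mis' H := by
  have h1 : Wins mis G true = Wins mis' H true := propext (h true)
  have h2 : Wins mis G false = Wins mis' H false := propext (h false)
  unfold outcome
  rw [h1, h2]

theorem wins_of_outcome {mis mis' : Bool} {G H : Game} (h : outcome mis G = outcome mis' H)
    (p : Bool) : Wins mis G p ↔ Wins mis' H p := by
  unfold outcome at h
  by_cases h1 : Wins mis G true <;> by_cases h2 : Wins mis G false <;>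
    by_cases h3 : Wins mis' H true <;> by_cases h4 : Wins mis' H false <;>
    simp [h1, h2, h3, h4] at h <;> cases p <;> simp [h1, h2, h3, h4]

theorem dicotic_is : ∀ G e a b c m, Is G e a b c m → Dicotic G := by
  intro G
  induction G using ind with
  | h G ih =>
    intro e a b c m h
    rw [is_iff] at h
    rw [dicotic_iff]
    refine ⟨?_, ?_⟩
    · have key : ∀ p, (∃ G', Opt p G G') ↔ e + a + b + c + m ≠ 0 := by
        intro p
        constructor
        · rintro ⟨G', hO⟩
          obtain ⟨e', a', b', c', m', hm, -⟩ := (h p).1 G' hO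
          exact ne_of_mv hm
        · intro h0
          obtain ⟨e', a', b', c', m', hm⟩ := exists_mv p e a b c m h0
          obtain ⟨G', hO, -⟩ := (h p).2 _ _ _ _ _ hm
          exact ⟨G', hO⟩
      rw [key, key]
    · intro p G' hO
      obtain ⟨e', a', b', c', m', -, hi⟩ := (h p).1 G' hO
      exact ih p G' hO _ _ _ _ _ hi

theorem wins_ident (mis : Bool) : ∀ G H, Ident G H → ∀ p, Wins mis G p ↔ Wins mis H p := by
  intro G
  induction G using ind with
  | h G ih =>
    intro H hI p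
    rw [ident_iff] at hI
    rw [wins_iff, wins_iff mis H]
    refine or_congr (and_congr Iff.rfl (not_congr ?_)) ?_
    · constructor
      · rintro ⟨G', hO⟩
        obtain ⟨H', hO', -⟩ := (hI p).1 G' hO
        exact ⟨H', hO'⟩
      · rintro ⟨H', hO⟩
        obtain ⟨G', hO', -⟩ := (hI p).2 H' hO
        exact ⟨G', hO'⟩
    · constructor
      · rintro ⟨G', hO, hw⟩
        obtain ⟨H', hO', hi⟩ := (hI p).1 G' hO
        exact ⟨H', hO', by rwa [← ih p G' hO H' hi]⟩
      · rintro ⟨H', hO, hw⟩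
        obtain ⟨G', hO', hi⟩ := (hI p).2 H' hO
        exact ⟨G', hO', by rwa [ih p G' hO' H' hi]⟩

/-! ### The games `*2`, `d`, `u` and `g` -/

/-- The game `*2 = {0, * | 0, *}`. -/
def two : Game := .mk (fun _ => 2) fun _ i => if i.val = 0 then zero else star

/-- The game `d = {0 | 0, *}`. -/
def d : Game := .mk (fun p => if p then 1 else 2) fun _ i => if i.val = 0 then zero else star

/-- The game `u = {0, * | 0}`. -/
def u : Game := .mk (fun p => if p then 2 else 1) fun _ i => if i.val = 0 then zero else star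

/-- The game `g = {0, d, u | 0, *2}`. -/
def g : Game := .mk (fun p => if p then 3 else 2) fun p i =>
  if i.val = 0 then zero else if p = true then (if i.val = 1 then d else u) else two

theorem is_zero : Is zero 0 0 0 0 0 := by
  rw [is_iff]
  intro p
  refine ⟨?_, ?_⟩
  · rintro G' ⟨i, -⟩
    exact i.elim0
  · intro e' a' b' c' m' h
    exact absurd rfl (ne_of_mv h)

theorem opt_star (p : Bool) (G : Game) : Opt p star G ↔ G = zero := by
  constructor
  · rintro ⟨i, rfl⟩
    rfl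
  · rintro rfl
    exact ⟨⟨0, Nat.zero_lt_one⟩, rfl⟩

theorem opt_two (p : Bool) (G : Game) : Opt p two G ↔ G = zero ∨ G = star := by
  simp only [Opt, two]
  constructor
  · rintro ⟨i, rfl⟩
    by_cases h : i.val = 0
    · left; simp [h]
    · right; simp [h]
  · rintro (rfl | rfl)
    · exact ⟨⟨0, by decide⟩, rfl⟩
    · exact ⟨⟨1, by decide⟩, rfl⟩

theorem opt_d (p : Bool) (G : Game) : Opt p d G ↔ G = zero ∨ (p = false ∧ G = star) := by
  cases p with
  | false =>
    simp only [Opt, d]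
    constructor
    · rintro ⟨i, rfl⟩
      by_cases h : i.val = 0
      · left; simp [h]
      · right; simp [h]
    · rintro (rfl | ⟨-, rfl⟩)
      · exact ⟨⟨0, by decide⟩, rfl⟩
      · exact ⟨⟨1, by decide⟩, rfl⟩
  | true =>
    simp only [Opt, d]
    constructor
    · rintro ⟨i, rfl⟩
      left
      simp
    · rintro (rfl | ⟨h, -⟩)
      · exact ⟨⟨0, by decide⟩, rfl⟩
      · simp at h

theorem opt_u (p : Bool) (G : Game) : Opt p u G ↔ G = zero ∨ (p = true ∧ G = star) := by
  cases p with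
  | true =>
    simp only [Opt, u]
    constructor
    · rintro ⟨i, rfl⟩
      by_cases h : i.val = 0
      · left; simp [h]
      · right; simp [h]
    · rintro (rfl | ⟨-, rfl⟩)
      · exact ⟨⟨0, by decide⟩, rfl⟩
      · exact ⟨⟨1, by decide⟩, rfl⟩
  | false =>
    simp only [Opt, u]
    constructor
    · rintro ⟨i, rfl⟩
      left
      simp
    · rintro (rfl | ⟨h, -⟩)
      · exact ⟨⟨0, by decide⟩, rfl⟩
      · simp at h

theorem opt_g (p : Bool) (G : Game) :
    Opt p g G ↔ G = zero ∨ (p = true ∧ (G = d ∨ G = u)) ∨ (p = false ∧ G = two) := by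
  cases p with
  | true =>
    simp only [Opt, g]
    constructor
    · rintro ⟨i, rfl⟩
      by_cases h : i.val = 0
      · left; simp [h]
      · by_cases h1 : i.val = 1
        · right; left; simp [h1]
        · right; left; simp [h, h1]
    · rintro (rfl | ⟨-, rfl | rfl⟩ | ⟨h, -⟩)
      · exact ⟨⟨0, by decide⟩, rfl⟩
      · exact ⟨⟨1, by decide⟩, rfl⟩
      · exact ⟨⟨2, by decide⟩, rfl⟩
      · simp at h
  | false =>
    simp only [Opt, g]
    constructor
    · rintro ⟨i, rfl⟩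
      by_cases h : i.val = 0
      · left; simp [h]
      · right; right; simp [h]
    · rintro (rfl | ⟨h, -⟩ | ⟨-, rfl⟩)
      · exact ⟨⟨0, by decide⟩, rfl⟩
      · simp at h
      · exact ⟨⟨1, by decide⟩, rfl⟩

theorem is_star : Is star 0 0 0 0 1 := by
  rw [is_iff]
  intro p
  refine ⟨?_, ?_⟩
  · intro G' hO
    rw [opt_star] at hO
    subst hO
    exact ⟨0, 0, 0, 0, 0, Or.inr (Or.inr (Or.inr (Or.inr (Or.inr (Or.inl (⟨by omega, by omega, by omega, by omega, by omega⟩)))))), is_zero⟩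
  · intro e' a' b' c' m' h
    unfold Mv at h
    rcases h with h | h | h | h | h | h | ⟨hp, h⟩ | ⟨hp, h⟩ | ⟨hp, h⟩ | ⟨hp, h⟩ | ⟨hp, h⟩
    · omega
    · omega
    · omega
    · omega
    · omega
    · obtain ⟨rfl, rfl, rfl, rfl, rfl⟩ : e' = 0 ∧ a' = 0 ∧ b' = 0 ∧ c' = 0 ∧ m' = 0 := by omega
      exact ⟨zero, (opt_star _ _).2 (rfl), is_zero⟩
    · omega
    · omega
    · omega
    · omega
    · omega

theorem is_two : Is two 0 1 0 0 0 := by
  rw [is_iff]
  intro p
  refine ⟨?_, ?_⟩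
  · intro G' hO
    rw [opt_two] at hO
    rcases hO with rfl | rfl
    · exact ⟨0, 0, 0, 0, 0, Or.inr (Or.inl (⟨by omega, by omega, by omega, by omega, by omega⟩)), is_zero⟩
    · exact ⟨0, 0, 0, 0, 1, Or.inr (Or.inr (Or.inl (⟨by omega, by omega, by omega, by omega, by omega⟩))), is_star⟩
  · intro e' a' b' c' m' h
    unfold Mv at h
    rcases h with h | h | h | h | h | h | ⟨hp, h⟩ | ⟨hp, h⟩ | ⟨hp, h⟩ | ⟨hp, h⟩ | ⟨hp, h⟩
    · omega
    · obtain ⟨rfl, rfl, rfl, rfl, rfl⟩ : e' = 0 ∧ a' = 0 ∧ b' = 0 ∧ c' = 0 ∧ m' = 0 := by omega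
      exact ⟨zero, (opt_two _ _).2 (Or.inl rfl), is_zero⟩
    · obtain ⟨rfl, rfl, rfl, rfl, rfl⟩ : e' = 0 ∧ a' = 0 ∧ b' = 0 ∧ c' = 0 ∧ m' = 1 := by omega
      exact ⟨star, (opt_two _ _).2 (Or.inr rfl), is_star⟩
    · omega
    · omega
    · omega
    · omega
    · omega
    · omega
    · omega
    · omega

theorem is_d : Is d 0 0 1 0 0 := by
  rw [is_iff]
  intro p
  refine ⟨?_, ?_⟩
  · intro G' hO
    rw [opt_d] at hO
    rcases hO with rfl | ⟨hp, rfl⟩
    · exact ⟨0, 0, 0, 0, 0, Or.inr (Or.inr (Or.inr (Or.inl (⟨by omega, by omega, by omega, by omega, by omega⟩)))), is_zero⟩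
    · exact ⟨0, 0, 0, 0, 1, Or.inr (Or.inr (Or.inr (Or.inr (Or.inr (Or.inr (Or.inr (Or.inr (Or.inr (Or.inr (⟨hp, by omega, by omega, by omega, by omega, by omega⟩)))))))))), is_star⟩
  · intro e' a' b' c' m' h
    unfold Mv at h
    rcases h with h | h | h | h | h | h | ⟨hp, h⟩ | ⟨hp, h⟩ | ⟨hp, h⟩ | ⟨hp, h⟩ | ⟨hp, h⟩
    · omega
    · omega
    · omega
    · obtain ⟨rfl, rfl, rfl, rfl, rfl⟩ : e' = 0 ∧ a' = 0 ∧ b' = 0 ∧ c' = 0 ∧ m' = 0 := by omega
      exact ⟨zero, (opt_d _ _).2 (Or.inl rfl), is_zero⟩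
    · omega
    · omega
    · omega
    · omega
    · omega
    · omega
    · obtain ⟨rfl, rfl, rfl, rfl, rfl⟩ : e' = 0 ∧ a' = 0 ∧ b' = 0 ∧ c' = 0 ∧ m' = 1 := by omega
      exact ⟨star, (opt_d _ _).2 (Or.inr ⟨hp, rfl⟩), is_star⟩

theorem is_u : Is u 0 0 0 1 0 := by
  rw [is_iff]
  intro p
  refine ⟨?_, ?_⟩
  · intro G' hO
    rw [opt_u] at hO
    rcases hO with rfl | ⟨hp, rfl⟩
    · exact ⟨0, 0, 0, 0, 0, Or.inr (Or.inr (Or.inr (Or.inr (Or.inl (⟨by omega, by omega, by omega, by omega, by omega⟩))))), is_zero⟩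
    · exact ⟨0, 0, 0, 0, 1, Or.inr (Or.inr (Or.inr (Or.inr (Or.inr (Or.inr (Or.inr (Or.inr (Or.inl (⟨hp, by omega, by omega, by omega, by omega, by omega⟩))))))))), is_star⟩
  · intro e' a' b' c' m' h
    unfold Mv at h
    rcases h with h | h | h | h | h | h | ⟨hp, h⟩ | ⟨hp, h⟩ | ⟨hp, h⟩ | ⟨hp, h⟩ | ⟨hp, h⟩
    · omega
    · omega
    · omega
    · omega
    · obtain ⟨rfl, rfl, rfl, rfl, rfl⟩ : e' = 0 ∧ a' = 0 ∧ b' = 0 ∧ c' = 0 ∧ m' = 0 := by omega
      exact ⟨zero, (opt_u _ _).2 (Or.inl rfl), is_zero⟩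
    · omega
    · omega
    · omega
    · obtain ⟨rfl, rfl, rfl, rfl, rfl⟩ : e' = 0 ∧ a' = 0 ∧ b' = 0 ∧ c' = 0 ∧ m' = 1 := by omega
      exact ⟨star, (opt_u _ _).2 (Or.inr ⟨hp, rfl⟩), is_star⟩
    · omega
    · omega

theorem is_g : Is g 1 0 0 0 0 := by
  rw [is_iff]
  intro p
  refine ⟨?_, ?_⟩
  · intro G' hO
    rw [opt_g] at hO
    rcases hO with rfl | ⟨hp, rfl | rfl⟩ | ⟨hp, rfl⟩
    · exact ⟨0, 0, 0, 0, 0, Or.inl (⟨by omega, by omega, by omega, by omega, by omega⟩), is_zero⟩
    · exact ⟨0, 0, 1, 0, 0, Or.inr (Or.inr (Or.inr (Or.inr (Or.inr (Or.inr (Or.inl (⟨hp, by omega, by omega, by omega, by omega, by omega⟩))))))), is_d⟩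
    · exact ⟨0, 0, 0, 1, 0, Or.inr (Or.inr (Or.inr (Or.inr (Or.inr (Or.inr (Or.inr (Or.inl (⟨hp, by omega, by omega, by omega, by omega, by omega⟩)))))))), is_u⟩
    · exact ⟨0, 1, 0, 0, 0, Or.inr (Or.inr (Or.inr (Or.inr (Or.inr (Or.inr (Or.inr (Or.inr (Or.inr (Or.inl (⟨hp, by omega, by omega, by omega, by omega, by omega⟩)))))))))), is_two⟩
  · intro e' a' b' c' m' h
    unfold Mv at h
    rcases h with h | h | h | h | h | h | ⟨hp, h⟩ | ⟨hp, h⟩ | ⟨hp, h⟩ | ⟨hp, h⟩ | ⟨hp, h⟩
    · obtain ⟨rfl, rfl, rfl, rfl, rfl⟩ : e' = 0 ∧ a' = 0 ∧ b' = 0 ∧ c' = 0 ∧ m' = 0 := by omega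
      exact ⟨zero, (opt_g _ _).2 (Or.inl rfl), is_zero⟩
    · omega
    · omega
    · omega
    · omega
    · omega
    · obtain ⟨rfl, rfl, rfl, rfl, rfl⟩ : e' = 0 ∧ a' = 0 ∧ b' = 1 ∧ c' = 0 ∧ m' = 0 := by omega
      exact ⟨d, (opt_g _ _).2 (Or.inr (Or.inl ⟨hp, Or.inl rfl⟩)), is_d⟩
    · obtain ⟨rfl, rfl, rfl, rfl, rfl⟩ : e' = 0 ∧ a' = 0 ∧ b' = 0 ∧ c' = 1 ∧ m' = 0 := by omega
      exact ⟨u, (opt_g _ _).2 (Or.inr (Or.inl ⟨hp, Or.inr rfl⟩)), is_u⟩
    · omega
    · obtain ⟨rfl, rfl, rfl, rfl, rfl⟩ : e' = 0 ∧ a' = 1 ∧ b' = 0 ∧ c' = 0 ∧ m' = 0 := by omega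
      exact ⟨two, (opt_g _ _).2 (Or.inr (Or.inr ⟨hp, rfl⟩)), is_two⟩
    · omega

/-- There is a closed set of dicots that contains `*` and has the evil twin property, but none of
whose evil kernels makes the pair evilly normal. -/
theorem result : ∃ A : Set Game, IsSetOfForms A ∧ (∀ G ∈ A, Dicotic G) ∧ IsClosed A ∧ star ∈ A ∧
    (∃ K, IsSetOfForms K ∧ IsEvilKernel A K) ∧ ∀ K, IsEvilKernel A K → ¬ IsNormal A K := by
  refine ⟨{G | ∃ e a b c m, Is G e a b c m}, ?_, ?_, ⟨?_, ?_⟩, ?_,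
    ⟨{G | (∃ e a b c m, Is G e a b c m) ∧ ∀ p, Wins false G p ↔ Wins true G p}, ?_, ?_, ?_, ?_⟩,
    ?_⟩
  · rintro G H hI ⟨e, a, b, c, m, h⟩
    exact ⟨e, a, b, c, m, is_ident _ _ hI _ _ _ _ _ h⟩
  · rintro G ⟨e, a, b, c, m, h⟩
    exact dicotic_is _ _ _ _ _ _ h
  · rintro G ⟨e, a, b, c, m, h⟩ H ⟨e', a', b', c', m', h'⟩
    exact ⟨_, _, _, _, _, is_add _ _ _ _ _ _ _ _ _ _ _ _ h h'⟩
  · rintro G ⟨e, a, b, c, m, h⟩ p G' hO
    rw [is_iff] at h
    obtain ⟨e', a', b', c', m', -, hi⟩ := (h p).1 G' hO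
    exact ⟨e', a', b', c', m', hi⟩
  · exact ⟨_, _, _, _, _, is_star⟩
  · rintro G H hI ⟨⟨e, a, b, c, m, h⟩, hw⟩
    refine ⟨⟨e, a, b, c, m, is_ident _ _ hI _ _ _ _ _ h⟩, fun p => ?_⟩
    rw [← wins_ident false G H hI, ← wins_ident true G H hI]
    exact hw p
  · rintro G ⟨h, -⟩
    exact h
  · rintro G ⟨h, hw⟩
    exact ⟨outcome_congr hw, (outcome_congr hw).symm⟩
  · rintro G ⟨e, a, b, c, m, h⟩ hK
    have h1 : Is (add G star) e a b c (m + 1) := by
      simpa using is_add _ _ _ _ _ _ _ _ _ _ _ _ h is_star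
    have hea : a = 0 ∧ e ≤ 1 := by
      by_contra hc
      apply hK
      refine ⟨⟨e, a, b, c, m, h⟩, fun p => ?_⟩
      rw [wins_is _ _ _ _ _ _ _ _ h, wins_is _ _ _ _ _ _ _ _ h]
      have f1 : fl false e a = 0 := by simp [fl]
      have f2 : fl true e a = 0 := by
        unfold fl
        rw [if_neg]
        rintro ⟨-, h1, h2⟩
        exact hc ⟨h1, h2⟩
      unfold W
      rw [f1, f2]
    obtain ⟨rfl, he⟩ := hea
    have f1 : fl false e 0 = 0 := by simp [fl]
    have f2 : fl true e 0 = 1 := by simp [fl, he]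
    have key : ∀ q p, (if p = true then thL e 0 (q + 2) ≤ (c : ℤ) - b
        else (c : ℤ) - b < thR e 0 (q + 2)) ↔
        (if p = true then thL e 0 q ≤ (c : ℤ) - b else (c : ℤ) - b < thR e 0 q) := by
      intro q p
      have t1 : thL e 0 (q + 2) = thL e 0 q := by
        unfold thL
        simp only [Nat.add_mod_right, ← add_assoc]
      have t2 : thR e 0 (q + 2) = thR e 0 q := by
        unfold thR
        simp only [Nat.add_mod_right, ← add_assoc]
      rw [t1, t2]
    refine ⟨outcome_congr fun p => ?_, outcome_congr fun p => ?_⟩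
    · rw [wins_is _ _ _ _ _ _ _ _ h, wins_is _ _ _ _ _ _ _ _ h1]
      unfold W
      rw [f1, f2, show b + c + (m + 1) + 1 = b + c + m + 0 + 2 by omega]
      exact (key _ p).symm
    · rw [wins_is _ _ _ _ _ _ _ _ h, wins_is _ _ _ _ _ _ _ _ h1]
      unfold W
      rw [f1, f2, show b + c + (m + 1) + 0 = b + c + m + 1 by omega]
  · rintro K ⟨-, hK1, hK2⟩ hn
    have hg : g ∈ {G | ∃ e a b c m, Is G e a b c m} := ⟨_, _, _, _, _, is_g⟩
    have hd : d ∈ {G | ∃ e a b c m, Is G e a b c m} := ⟨_, _, _, _, _, is_d⟩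
    have hgg : Is (add g g) 2 0 0 0 0 := is_add _ _ _ _ _ _ _ _ _ _ _ _ is_g is_g
    have hggd : Is (add (add g g) d) 2 0 1 0 0 := is_add _ _ _ _ _ _ _ _ _ _ _ _ hgg is_d
    have hggds : Is (add (add (add g g) d) star) 2 0 1 0 1 :=
      is_add _ _ _ _ _ _ _ _ _ _ _ _ hggd is_star
    have g1 : g ∉ K := by
      intro h
      have := wins_of_outcome (hK1 g h).1 false
      rw [wins_is _ _ _ _ _ _ _ _ is_g, wins_is _ _ _ _ _ _ _ _ is_g] at this
      simp [W, thR, fl] at this
    have d1 : d ∉ K := by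
      intro h
      have := wins_of_outcome (hK1 d h).1 true
      rw [wins_is _ _ _ _ _ _ _ _ is_d, wins_is _ _ _ _ _ _ _ _ is_d] at this
      simp [W, thL, fl] at this
    have gg1 : add g g ∉ K := (hn g hg g hg).2 ⟨g1, g1⟩
    have ggd1 : add (add g g) d ∉ K := (hn _ ⟨_, _, _, _, _, hgg⟩ d hd).2 ⟨gg1, d1⟩
    have := wins_of_outcome (hK2 _ ⟨_, _, _, _, _, hggd⟩ ggd1).1 false
    rw [wins_is _ _ _ _ _ _ _ _ hggd, wins_is _ _ _ _ _ _ _ _ hggds] at this
    simp [W, thR, fl] at this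

end Pool.Agent.Results.MP_df1cff_co.NotNormalizable
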